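import Pool.Agent.QSN.StmtsD

/-!
# Squad QSN (MP_dc0713_gt), row SON: one active weight
-/

set_option autoImplicit false

namespace Pool.Agent.QSN.H46

open Matrix Finset Pool.Agent.QSX
open Pool.Agent.QSN

theorem son (SCT : SctStmt) (SWD : SwdStmt) (SAC : SacStmt) : SonStmt := by
  intro N m D D' _ _ _ _ _ _ hdiv S r hr μ hμ hone
  have h0l : (0 : Fin (N + 2)) < la N := Fin.last_pos
  refine ⟨?_, ?_⟩
  · classical
    let Φ : D →ₗ[ℝ] ({p : Fin m // S.w p = μ + ep 0 (la N)} → {q : Fin m // S.w q = μ} → D') :=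
      { toFun := fun x p q => S.t 0 (la N) x p.1 q.1
        map_add' := fun x y => by
          funext p q
          rw [map_add]
          rfl
        map_smul' := fun c x => by
          funext p q
          rw [map_smul]
          rfl }
    have hΦ : Function.Injective Φ := by
      rw [← LinearMap.ker_eq_bot, LinearMap.ker_eq_bot']
      intro x hx
      have hz : S.t 0 (la N) x = 0 := by
        ext p q
        by_contra hne
        have hne' : S.t 0 (la N) x p q ≠ 0 := hne
        have hq : S.w q = μ := hone _ ⟨p, q, x, rfl, hne'⟩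
        have hp : S.w p = μ + ep 0 (la N) := by rw [S.sup 0 (la N) h0l x p q hne', hq]
        have h1 := congrFun (congrFun hx ⟨p, hp⟩) ⟨q, hq⟩
        exact hne' h1
      apply S.inj 0 (la N) h0l
      rw [hz, map_zero]
    have h1 := LinearMap.finrank_le_finrank_of_injective hΦ
    rw [Module.finrank_pi_fintype, Finset.sum_const, Module.finrank_pi_fintype, Finset.sum_const,
      Finset.card_univ, Finset.card_univ] at h1
    unfold mu
    rw [Nat.card_eq_fintype_card, Nat.card_eq_fintype_card, mul_assoc]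
    simpa using h1
  · have h1 := SCT m (SZ (N + 2) → ℝ) (Fin 2 ⊕ (Fin N ⊕ Fin N)) S.w (fun i => μ + wo i)
      (fun i j hij => (SWD N).1 (add_left_cancel hij))
    obtain ⟨-, -, h2⟩ := SAC N m D D' hdiv S r hr μ hμ
    rw [Fintype.sum_sum_type, Fintype.sum_sum_type, Fin.sum_univ_two] at h1
    have e0 : μ + (wo (Sum.inl 0 : Fin 2 ⊕ (Fin N ⊕ Fin N))) = μ := by
      show μ + 0 = μ
      rw [add_zero]
    have e1 : μ + (wo (Sum.inl 1 : Fin 2 ⊕ (Fin N ⊕ Fin N))) = μ + ep 0 (la N) := rfl
    rw [e0, e1] at h1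
    have h3 : r * N ≤ ∑ j : Fin N, mu S.w (μ + wo (Sum.inr (Sum.inl j))) +
        ∑ j : Fin N, mu S.w (μ + wo (Sum.inr (Sum.inr j))) := by
      rw [← Finset.sum_add_distrib]
      have h4 : ∑ _j : Fin N, r ≤ ∑ j : Fin N, (mu S.w (μ + wo (Sum.inr (Sum.inl j))) +
          mu S.w (μ + wo (Sum.inr (Sum.inr j)))) := Finset.sum_le_sum fun j _ => h2 j
      rw [Finset.sum_const, Finset.card_univ, Fintype.card_fin, smul_eq_mul] at h4
      linarith
    omega

end Pool.Agent.QSN.H46
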