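import Pool.Agent.QSN.StmtsB2

/-!
# Squad QSN (MP_dc0713_gt), row SML: the entries of weight larger than the top root are small
-/

set_option autoImplicit false

namespace Pool.Agent.QSN.H46

open Matrix Finset Pool.Agent.QSX Filter Topology
open Pool.Agent.QSN

theorem sml (SCL : SclStmt) : SmlStmt := by
  intro X Y hX H A Q j u hu hu0 i l κ hil hκ hP
  obtain ⟨c, hc, hS⟩ := SCL X Y hX H A Q j u hu hu0
  obtain ⟨a0, ha0⟩ := hX.pos
  have hθ := ha0 (hX.top j)
  set a1 : X.b := (hX.rt (hX.top j) a0)⁻¹ • a0 with ha1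
  have hθ1 : hX.rt (hX.top j) a1 = 1 := by
    rw [ha1, map_smul, smul_eq_mul, inv_mul_cancel₀ hθ.ne']
  have hn1 : 0 < 1 + ‖a1‖ := by positivity
  set t : ℝ := min (c / 2) (1 / (1 + ‖a1‖)) with ht
  have ht0 : 0 < t := lt_min (by positivity) (by positivity)
  have htc : t ≤ c / 2 := min_le_left _ _
  have hta : t * ‖a1‖ ≤ 1 := by
    have h1 : t ≤ 1 / (1 + ‖a1‖) := min_le_right _ _
    have h2 : t * (1 + ‖a1‖) ≤ 1 := by
      rw [le_div_iff₀ hn1] at h1
      exact h1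
    nlinarith
  obtain ⟨τ, hτ1, hτ2, -⟩ := hS t ht0.le
  have hε : 0 < (κ - 1) * t / 2 := by
    have : 0 < κ - 1 := by linarith
    positivity
  have hmem : (-(t • a1) : X.b) ∈ {a : X.b | ‖a‖ ≤ 1} ∩ {a | -t ≤ hX.rt (hX.top j) a} := by
    refine ⟨?_, ?_⟩
    · show ‖-(t • a1)‖ ≤ 1
      rw [norm_neg, norm_smul, Real.norm_eq_abs, abs_of_pos ht0]
      exact hta
    · show -t ≤ hX.rt (hX.top j) (-(t • a1))
      rw [map_neg, map_smul, hθ1, smul_eq_mul, mul_one]
  have hPa : A.P (-(t • a1)) i - A.P (-(t • a1)) l = -(κ * t) := by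
    rw [hP, map_neg, map_smul, hθ1, smul_eq_mul]
    ring
  set e : ℝ := min ((κ - 1) * t / 2) (c / 2) / 2 with he
  have he0 : 0 < e := by
    have : 0 < min ((κ - 1) * t / 2) (c / 2) := lt_min hε (by positivity)
    positivity
  have he1 : 2 * e ≤ (κ - 1) * t / 2 := by
    have := min_le_left ((κ - 1) * t / 2) (c / 2)
    linarith
  have he2 : 2 * e ≤ c / 2 := by
    have := min_le_right ((κ - 1) * t / 2) (c / 2)
    linarith
  refine ⟨e, he0, ?_⟩
  filter_upwards [hτ1 i l, hτ2 _ hε, A.S.ev_R 0, A.S.ev_R (Real.log 2 / e)] with s h1 h2 h3 h4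
  have h5 := h2 _ hmem i l hil
  rw [hPa] at h5
  set Λ := ∑ k, u s k * Q.T s (sh (A.M s) k) i l with hΛ
  have h6 : |Real.exp (-(t * A.S.R s)) * Λ| ≤
      Real.exp (A.S.R s * (-(κ * t) + (κ - 1) * t / 2)) + Real.exp (-(c * A.S.R s)) := by
    have h7 : Real.exp (-(t * A.S.R s)) * Λ =
        τ s i l - (τ s i l - Real.exp (-(t * A.S.R s)) * Λ) := by ring
    rw [h7]
    exact (abs_sub _ _).trans (add_le_add h5 h1)
  rw [abs_mul, abs_of_pos (Real.exp_pos _)] at h6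
  have h8 : |Λ| = Real.exp (t * A.S.R s) * (Real.exp (-(t * A.S.R s)) * |Λ|) := by
    rw [← mul_assoc, ← Real.exp_add, add_neg_cancel, Real.exp_zero, one_mul]
  have h9 : |Λ| ≤ Real.exp (-(2 * e * A.S.R s)) + Real.exp (-(2 * e * A.S.R s)) := by
    rw [h8]
    refine (mul_le_mul_of_nonneg_left h6 (Real.exp_pos _).le).trans ?_
    rw [mul_add, ← Real.exp_add, ← Real.exp_add]
    refine add_le_add (Real.exp_le_exp.2 ?_) (Real.exp_le_exp.2 ?_)
    · nlinarith
    · nlinarith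
  have h10 : 2 ≤ Real.exp (e * A.S.R s) := by
    rw [← Real.log_le_iff_le_exp (by norm_num)]
    rw [div_le_iff₀ he0] at h4
    linarith
  have h11 : Real.exp (-(e * A.S.R s)) = Real.exp (-(2 * e * A.S.R s)) * Real.exp (e * A.S.R s) := by
    rw [← Real.exp_add]
    congr 1
    ring
  have h12 := mul_le_mul_of_nonneg_left h10 (Real.exp_pos (-(2 * e * A.S.R s))).le
  show |Λ| ≤ Real.exp (-(e * A.S.R s))
  rw [h11]
  linarith

end Pool.Agent.QSN.H46
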